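import Pool.Agent.Q203.BD.Main

set_option autoImplicit false

/-!
# A Borel digraph without bipartite Borel dominating sets: the game
-/

namespace Pool.Agent.Q214.BD2

open MeasureTheory Q203.BD

/-- labels -/
abbrev L : Type := Fin 5

/-- a pair of rooted labelled binary trees -/
abbrev Side : Type := Fin 2 → List (Fin 2) → L

/-- labelled pointed trees: the label of the base point, and the two sides -/
abbrev V : Type := L × Side × Side

/-- the labels of a tree with given root label and given children -/
def node (l : L) (v : Side) : List (Fin 2) → L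
  | [] => l
  | e :: p => v e p

/-- moving the base point along the first triangle -/
def fa (x : V) : V :=
  (x.2.1 0 [], ![x.2.1 1, node x.1 x.2.2], fun e p => x.2.1 0 (e :: p))

/-- moving the base point along the second triangle -/
def fb (x : V) : V :=
  (x.2.2 0 [], fun e p => x.2.2 0 (e :: p), ![x.2.2 1, node x.1 x.2.1])

theorem node_eta (t : List (Fin 2) → L) : node (t []) (fun e p => t (e :: p)) = t := by
  funext p
  cases p <;> rfl

theorem node_sub (l : L) (v : Side) : (fun e p => node l v (e :: p)) = v := rfl

theorem vec_eta (u : Side) : ![u 0, u 1] = u := by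
  funext e
  fin_cases e <;> rfl

theorem fa3 (x : V) : fa (fa (fa x)) = x := by
  obtain ⟨l, u, v⟩ := x
  simp only [fa, Matrix.cons_val_zero, Matrix.cons_val_one]
  refine Prod.ext rfl (Prod.ext ?_ rfl)
  funext e
  fin_cases e
  · exact node_eta (u 0)
  · exact node_eta (u 1)

theorem fb3 (x : V) : fb (fb (fb x)) = x := by
  obtain ⟨l, u, v⟩ := x
  simp only [fb, Matrix.cons_val_zero, Matrix.cons_val_one]
  refine Prod.ext rfl (Prod.ext rfl ?_)
  funext e
  fin_cases e
  · exact node_eta (v 0)
  · exact node_eta (v 1)

/-- the flip of the two sides -/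
def flip (x : V) : V := (x.1, x.2.2, x.2.1)

theorem flip_flip (x : V) : flip (flip x) = x := rfl

theorem fb_eq (x : V) : fb x = flip (fa (flip x)) := rfl

theorem measurable_flip : Measurable flip :=
  measurable_fst.prodMk ((measurable_snd.comp measurable_snd).prodMk
    (measurable_fst.comp measurable_snd))

theorem measurable_node : Measurable fun q : L × Side => node q.1 q.2 := by
  refine measurable_pi_lambda _ fun p => ?_
  cases p with
  | nil => exact measurable_fst
  | cons e p =>
    exact (measurable_pi_apply p).comp ((measurable_pi_apply e).comp measurable_snd)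

theorem measurable_fa : Measurable fa := by
  have h1 : Measurable fun x : V => x.2.1 := measurable_fst.comp measurable_snd
  have hc : ∀ e p, Measurable fun x : V => x.2.1 e p := fun e p =>
    (measurable_pi_apply p).comp ((measurable_pi_apply e).comp h1)
  refine (hc 0 []).prodMk (Measurable.prodMk (measurable_pi_lambda _ fun e => ?_)
    (measurable_pi_lambda _ fun e => measurable_pi_lambda _ fun p => hc 0 (e :: p)))
  fin_cases e
  · exact (measurable_pi_apply 1).comp h1
  · exact measurable_node.comp (measurable_fst.prodMk (measurable_snd.comp measurable_snd))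

theorem measurable_fb : Measurable fb :=
  (measurable_flip.comp (measurable_fa.comp measurable_flip))

/-- moves of the game: a player proposes labels for all the vertices on one of the sides, of which
only those on the current level will be used -/
def Mv : Type := Side

instance : TopologicalSpace Mv := ⊥

instance : DiscreteTopology Mv := ⟨rfl⟩

instance : Nonempty Mv := ⟨(fun _ _ => 0 : Side)⟩

/-- the label proposed by a move -/
def Mv.lab (m : Mv) (e : Fin 2) (p : List (Fin 2)) : L := (m : Side) e p

/-- the move given by a side -/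
def Mv.of (u : Side) : Mv := u

theorem lab_of (u : Side) (e : Fin 2) (p : List (Fin 2)) : (Mv.of u).lab e p = u e p := rfl

/-- the outcome of the game: the first player labels the first side, level by level -/
def outc (i : L) (z : ℕ → Mv) : V :=
  (i, fun e p => (z (2 * p.length)).lab e p, fun e p => (z (2 * p.length + 1)).lab e p)

theorem measurable_outc (i : L) : @Measurable (ℕ → Mv) V (borel _) _ (outc i) := by
  letI : MeasurableSpace (ℕ → Mv) := borel _
  haveI : BorelSpace (ℕ → Mv) := ⟨rfl⟩
  have hc : ∀ (k : ℕ) (e : Fin 2) (p : List (Fin 2)), Measurable fun z : ℕ → Mv => (z k).lab e p := by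
    intro k e p
    have : Continuous fun z : ℕ → Mv => (z k).lab e p :=
      (continuous_of_discreteTopology (f := fun m : Mv => m.lab e p)).comp (continuous_apply k)
    exact this.measurable
  exact measurable_const.prodMk (Measurable.prodMk
    (measurable_pi_lambda _ fun e => measurable_pi_lambda _ fun p => hc _ e p)
    (measurable_pi_lambda _ fun e => measurable_pi_lambda _ fun p => hc _ e p))

/-- recursion -/
theorem exists_rec {Z : Type} [Nonempty Z] (G : ℕ → (ℕ → Z) → Z)
    (hG : ∀ s F F', (∀ r < s, F r = F' r) → G s F = G s F') : ∃ F : ℕ → Z, ∀ s, F s = G s F := by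
  classical
  obtain ⟨z0⟩ := ‹Nonempty Z›
  let P : ℕ → ℕ → Z := fun t => Nat.rec (fun _ => z0) (fun s p => Function.update p s (G s p)) t
  have hP : ∀ t, P (t + 1) = Function.update (P t) t (G t (P t)) := fun t => rfl
  have hst : ∀ t s r, r < s → s ≤ t → P t r = P s r := by
    intro t s r hr hs
    induction t, hs using Nat.le_induction with
    | base => rfl
    | succ t ht ih =>
      rw [hP, Function.update_of_ne (by omega), ih]
  refine ⟨fun s => P (s + 1) s, fun s => ?_⟩
  show P (s + 1) s = _
  rw [hP, Function.update_self]
  apply hG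
  intro r hr
  exact hst s (r + 1) r (by omega) (by omega)

theorem hist_congr {X : Type} {z w : ℕ → X} {n : ℕ} (h : ∀ m < n, z m = w m) :
    hist z n = hist w n := (hist_eq_iff z w n).2 h

/-- the play built from two sequences of moves -/
def play (I J : ℕ → Mv) (n : ℕ) : Mv := if n % 2 = 0 then I (n / 2) else J (n / 2)

theorem play_even (I J : ℕ → Mv) (s : ℕ) : play I J (2 * s) = I s := by
  unfold play
  rw [if_pos (by omega), show 2 * s / 2 = s by omega]

theorem play_odd (I J : ℕ → Mv) (s : ℕ) : play I J (2 * s + 1) = J s := by
  unfold play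
  rw [if_neg (by omega), show (2 * s + 1) / 2 = s by omega]

/-- truncation of a side to the levels at most `s` -/
def trunc (s : ℕ) (u : Side) : Mv := Mv.of fun e p => if p.length ≤ s then u e p else 0

theorem trunc_congr {s : ℕ} {u u' : Side} (h : ∀ e p, p.length ≤ s → u e p = u' e p) :
    trunc s u = trunc s u' := by
  unfold trunc
  congr 1
  funext e p
  split_ifs with hp
  · exact h e p hp
  · rfl

/-- the side given by a sequence of moves -/
def side (F : ℕ → Mv) : Side := fun e p => (F p.length).lab e p

/-- the opposite side at the vertex `n` of the triangle -/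
def opp (l : ZMod 3 → L) (S : ZMod 3 → Side) (n : ZMod 3) : Side :=
  ![node (l (n + 1)) (S (n + 1)), node (l (n + 2)) (S (n + 2))]

theorem opp_congr {l : ZMod 3 → L} {F F' : ℕ → ZMod 3 → Mv} {s : ℕ} (h : ∀ r < s, F r = F' r)
    (n : ZMod 3) (e : Fin 2) (p : List (Fin 2)) (hp : p.length ≤ s) :
    opp l (fun m => side fun r => F r m) n e p = opp l (fun m => side fun r => F' r m) n e p := by
  have key : ∀ m : ZMod 3, node (l m) (side fun r => F r m) p = node (l m) (side fun r => F' r m) p := by
    intro m
    cases p with
    | nil => rfl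
    | cons e' p' =>
      show (F p'.length m).lab e' p' = (F' p'.length m).lab e' p'
      rw [h _ (by simp only [List.length_cons] at hp; omega)]
  fin_cases e
  · exact key _
  · exact key _

/-- If the second player wins the games with the base labels `l 0, l 1, l 2`, then there is a
triangle of winning positions. -/
theorem second_wins {Q : Set V} {l : ZMod 3 → L} {τ : ZMod 3 → List Mv → Mv}
    (hτ : ∀ n (z : ℕ → Mv), (∀ k, ¬ Even k → z k = τ n (hist z k)) → outc (l n) z ∈ Q) :
    ∃ x : ZMod 3 → V, (∀ n, x n ∈ Q) ∧ (∀ n, (x n).1 = l n) ∧ ∀ n, fa (x n) = x (n + 1) := by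
  let I : (ℕ → ZMod 3 → Mv) → ZMod 3 → ℕ → Mv := fun F n s =>
    trunc s (opp l (fun m => side fun r => F r m) n)
  let G : ℕ → (ℕ → ZMod 3 → Mv) → ZMod 3 → Mv := fun s F n =>
    τ n (hist (play (I F n) fun r => F r n) (2 * s + 1))
  obtain ⟨F, hF⟩ := exists_rec G (by
    intro s F F' h
    funext n
    show τ n _ = τ n _
    congr 1
    apply hist_congr
    intro m hm
    obtain ⟨k, hk | hk⟩ : ∃ k, m = 2 * k ∨ m = 2 * k + 1 := ⟨m / 2, by omega⟩
    · subst hk
      rw [play_even, play_even]
      apply trunc_congr
      intro e p hp
      exact opp_congr h n e p (by omega)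
    · subst hk
      rw [play_odd, play_odd, h k (by omega)])
  refine ⟨fun n => (l n, opp l (fun m => side fun r => F r m) n, side fun r => F r n),
    fun n => ?_, fun n => rfl, fun n => ?_⟩
  · have h1 := hτ n (play (I F n) fun r => F r n) (by
      intro k hk
      obtain ⟨j, rfl⟩ : ∃ j, k = 2 * j + 1 := ⟨k / 2, by
        rw [Nat.not_even_iff] at hk
        omega⟩
      rw [play_odd, hF j])
    convert h1 using 1
    refine Prod.ext rfl (Prod.ext ?_ ?_)
    · funext e p
      show _ = (play (I F n) (fun r => F r n) (2 * p.length)).lab e p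
      rw [play_even]
      show _ = if p.length ≤ p.length then _ else _
      rw [if_pos le_rfl]
    · funext e p
      show _ = (play (I F n) (fun r => F r n) (2 * p.length + 1)).lab e p
      rw [play_odd]
      rfl
  · refine Prod.ext rfl (Prod.ext ?_ rfl)
    show ![node (l (n + 2)) _, node (l n) _] = ![node (l (n + 1 + 1)) _, node (l (n + 1 + 2)) _]
    have e1 : n + 1 + 1 = n + 2 := by ring
    have e2 : n + 1 + 2 = n := by
      have : (3 : ZMod 3) = 0 := by decide
      calc n + 1 + 2 = n + 3 := by ring
        _ = n := by rw [this, add_zero]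
    rw [e1, e2]

/-- The same for the first player. -/
theorem first_wins {Q : Set V} {l : ZMod 3 → L} {σ : ZMod 3 → List Mv → Mv}
    (hσ : ∀ n (z : ℕ → Mv), (∀ k, Even k → z k = σ n (hist z k)) → outc (l n) z ∈ Q) :
    ∃ x : ZMod 3 → V, (∀ n, x n ∈ Q) ∧ (∀ n, (x n).1 = l n) ∧ ∀ n, fb (x n) = x (n + 1) := by
  let J : (ℕ → ZMod 3 → Mv) → ZMod 3 → ℕ → Mv := fun F n s =>
    trunc s (opp l (fun m => side fun r => F r m) n)
  let G : ℕ → (ℕ → ZMod 3 → Mv) → ZMod 3 → Mv := fun s F n =>
    σ n (hist (play (fun r => F r n) (J F n)) (2 * s))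
  obtain ⟨F, hF⟩ := exists_rec G (by
    intro s F F' h
    funext n
    show σ n _ = σ n _
    congr 1
    apply hist_congr
    intro m hm
    obtain ⟨k, hk | hk⟩ : ∃ k, m = 2 * k ∨ m = 2 * k + 1 := ⟨m / 2, by omega⟩
    · subst hk
      rw [play_even, play_even, h k (by omega)]
    · subst hk
      rw [play_odd, play_odd]
      apply trunc_congr
      intro e p hp
      exact opp_congr h n e p (by omega))
  refine ⟨fun n => (l n, side fun r => F r n, opp l (fun m => side fun r => F r m) n),
    fun n => ?_, fun n => rfl, fun n => ?_⟩
  · have h1 := hσ n (play (fun r => F r n) (J F n)) (by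
      intro k hk
      obtain ⟨j, rfl⟩ : ∃ j, k = 2 * j := ⟨k / 2, by
        rw [Nat.even_iff] at hk
        omega⟩
      rw [play_even, hF j])
    convert h1 using 1
    refine Prod.ext rfl (Prod.ext ?_ ?_)
    · funext e p
      show _ = (play (fun r => F r n) (J F n) (2 * p.length)).lab e p
      rw [play_even]
      rfl
    · funext e p
      show _ = (play (fun r => F r n) (J F n) (2 * p.length + 1)).lab e p
      rw [play_odd]
      show _ = if p.length ≤ p.length then _ else _
      rw [if_pos le_rfl]
  · refine Prod.ext rfl (Prod.ext rfl ?_)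
    show ![node (l (n + 2)) _, node (l n) _] = ![node (l (n + 1 + 1)) _, node (l (n + 1 + 2)) _]
    have e1 : n + 1 + 1 = n + 2 := by ring
    have e2 : n + 1 + 2 = n := by
      have : (3 : ZMod 3) = 0 := by decide
      calc n + 1 + 2 = n + 3 := by ring
        _ = n := by rw [this, add_zero]
    rw [e1, e2]

end Pool.Agent.Q214.BD2
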