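import Pool.Agent.Q214.BD2.A

set_option autoImplicit false

/-!
# A Borel digraph without bipartite Borel dominating sets
-/

namespace Pool.Agent.Q214.BD2

open MeasureTheory Q203.BD

/-- For every Borel set `Q` there is a triangle of `fa` in `Q` or a triangle of `fb` in the
complement of `Q`, with distinct labels. -/
theorem triangle {Q : Set V} (hQ : MeasurableSet Q) :
    ∃ l : ZMod 3 → L, Function.Injective l ∧
      ((∃ x : ZMod 3 → V, (∀ n, x n ∈ Q) ∧ (∀ n, (x n).1 = l n) ∧ ∀ n, fa (x n) = x (n + 1)) ∨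
        ∃ x : ZMod 3 → V, (∀ n, x n ∈ Qᶜ) ∧ (∀ n, (x n).1 = l n) ∧ ∀ n, fb (x n) = x (n + 1)) := by
  classical
  have hdet : ∀ i : L, (∃ σ : List Mv → Mv, ∀ z : ℕ → Mv, (∀ k, Even k → z k = σ (hist z k)) →
      outc i z ∈ Qᶜ) ∨ ∃ τ : List Mv → Mv, ∀ z : ℕ → Mv, (∀ k, ¬ Even k → z k = τ (hist z k)) →
      outc i z ∈ Q := by
    intro i
    rcases borel_determinacy (X := Mv) (A := outc i ⁻¹' Qᶜ)
      (measurable_outc i hQ.compl) with ⟨σ, h⟩ | ⟨τ, h⟩
    · exact Or.inl ⟨σ, h⟩
    · exact Or.inr ⟨τ, fun z hz => not_not.1 (h z hz)⟩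
  let S : Finset L := Finset.univ.filter fun i => ∃ σ : List Mv → Mv, ∀ z : ℕ → Mv,
    (∀ k, Even k → z k = σ (hist z k)) → outc i z ∈ Qᶜ
  have hcard : 3 ≤ S.card ∨ 3 ≤ Sᶜ.card := by
    have h1 := S.card_add_card_compl
    have h2 : Fintype.card L = 5 := rfl
    omega
  rcases hcard with h | h
  · let l : Fin 3 → L := fun n => S.orderEmbOfCardLe h n
    have hl : ∀ n, l n ∈ S := fun n => S.orderEmbOfCardLe_mem h n
    have hlS : ∀ n, ∃ σ : List Mv → Mv, ∀ z : ℕ → Mv,
        (∀ k, Even k → z k = σ (hist z k)) → outc (l n) z ∈ Qᶜ := fun n =>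
      (Finset.mem_filter.1 (hl n)).2
    choose σ hσ using hlS
    exact ⟨l, (S.orderEmbOfCardLe h).injective, Or.inr (first_wins (l := l) (σ := σ) hσ)⟩
  · let l : Fin 3 → L := fun n => Sᶜ.orderEmbOfCardLe h n
    have hl : ∀ n, l n ∈ Sᶜ := fun n => Sᶜ.orderEmbOfCardLe_mem h n
    have hlS : ∀ n, ∃ τ : List Mv → Mv, ∀ z : ℕ → Mv,
        (∀ k, ¬ Even k → z k = τ (hist z k)) → outc (l n) z ∈ Q := by
      intro n
      rcases hdet (l n) with h1 | h1
      · have h2 : l n ∈ S := Finset.mem_filter.2 ⟨Finset.mem_univ _, h1⟩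
        exact absurd h2 (Finset.mem_compl.1 (hl n))
      · exact h1
    choose τ hτ using hlS
    exact ⟨l, (Sᶜ.orderEmbOfCardLe h).injective, Or.inl (second_wins (l := l) (τ := τ) hτ)⟩

/-- the arcs -/
def D (x y : V) : Prop := (y = fa x ∧ (fa x).1 ≠ x.1) ∨ (y = fb x ∧ (fb x).1 ≠ x.1)

theorem D_label {x y : V} (h : D x y) : x.1 ≠ y.1 := by
  rcases h with ⟨rfl, h⟩ | ⟨rfl, h⟩
  · exact h.symm
  · exact h.symm

/-- no Borel labelling with three labels -/
theorem no_labelling (c : V → Fin 3) (hc : Measurable c)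
    (h0 : ∀ x, c x = 0 → ∃ y, D x y ∧ c y ≠ 0) (h1 : ∀ x y, D x y → c x ≠ 0 → c y ≠ c x) :
    False := by
  let Q : Set V := {x | c x = 1 ∨ (c x = 0 ∧ (fa x).1 ≠ x.1 ∧ c (fa x) ≠ 0)}
  have hQ : MeasurableSet Q := by
    have m1 : MeasurableSet {x : V | c x = 1} := hc (MeasurableSet.singleton (1 : Fin 3))
    have m0 : MeasurableSet {x : V | c x = 0} := hc (MeasurableSet.singleton (0 : Fin 3))
    have m2 : MeasurableSet {x : V | (fa x).1 ≠ x.1} :=
      (measurableSet_eq_fun (measurable_fst.comp measurable_fa) measurable_fst).compl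
    have m3 : MeasurableSet {x : V | c (fa x) ≠ 0} :=
      ((hc.comp measurable_fa) (MeasurableSet.singleton (0 : Fin 3))).compl
    exact m1.union (m0.inter (m2.inter m3))
  have fin3 : ∀ t : Fin 3, t = 0 ∨ t = 1 ∨ t = 2 := by decide
  have par : ∀ (x : ZMod 3 → V) (a : Fin 3), a ≠ 0 → (∀ n, c (x n) = 0 ∨ c (x n) = a) →
      (∀ n, c (x n) = 0 → c (x (n + 1)) ≠ 0) → (∀ n, c (x n) ≠ 0 → c (x (n + 1)) ≠ c (x n)) →
      False := by
    intro x a ha hv hz hn
    have e1 : (0 : ZMod 3) + 1 = 1 := rfl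
    have e2 : (1 : ZMod 3) + 1 = 2 := rfl
    have e3 : (2 : ZMod 3) + 1 = 0 := rfl
    have step : ∀ n, c (x n) = 0 ↔ c (x (n + 1)) = a := by
      intro n
      constructor
      · intro h
        exact (hv (n + 1)).resolve_left (hz n h)
      · intro h
        by_contra h'
        have h2 := (hv n).resolve_left h'
        exact hn n h' (by rw [h, h2])
    have s0 := step 0
    have s1 := step 1
    have s2 := step 2
    rw [e1] at s0
    rw [e2] at s1
    rw [e3] at s2
    by_cases h : c (x 0) = 0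
    · have h1' := s0.1 h
      have h2' : c (x 2) ≠ a := fun h' => ha (by rw [← h1']; exact s1.2 h')
      have h3' := (hv 2).resolve_right h2'
      have h4' := s2.1 h3'
      exact ha (by rw [← h4', h])
    · have h0' := (hv 0).resolve_left h
      have h2' := s2.2 h0'
      have h1' : c (x 1) ≠ 0 := fun h' => by
        have := s1.1 h'
        exact ha (by rw [← this, h2'])
      have h3' := (hv 1).resolve_left h1'
      exact h (s0.2 h3')
  obtain ⟨l, hl, ⟨x, hx1, hx2, hx3⟩ | ⟨x, hx1, hx2, hx3⟩⟩ := triangle hQ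
  · have hne : ∀ n : ZMod 3, (fa (x n)).1 ≠ (x n).1 := by
      intro n
      rw [hx3, hx2, hx2]
      intro h
      have := hl h
      have h2 : (1 : ZMod 3) = 0 := by
        calc (1 : ZMod 3) = (n + 1) - n := by ring
          _ = 0 := by rw [this]; ring
      exact absurd h2 (by decide)
    have hD : ∀ n, D (x n) (x (n + 1)) := fun n => Or.inl ⟨(hx3 n).symm, hne n⟩
    refine par x 1 (by decide) (fun n => ?_) (fun n hn => ?_) (fun n hn => h1 _ _ (hD n) hn)
    · rcases hx1 n with h | h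
      · exact Or.inr h
      · exact Or.inl h.1
    · rcases hx1 n with h | h
      · rw [hn] at h
        exact absurd h (by decide)
      · rw [← hx3]
        exact h.2.2
  · have hne : ∀ n : ZMod 3, (fb (x n)).1 ≠ (x n).1 := by
      intro n
      rw [hx3, hx2, hx2]
      intro h
      have := hl h
      have h2 : (1 : ZMod 3) = 0 := by
        calc (1 : ZMod 3) = (n + 1) - n := by ring
          _ = 0 := by rw [this]; ring
      exact absurd h2 (by decide)
    have hD : ∀ n, D (x n) (x (n + 1)) := fun n => Or.inr ⟨(hx3 n).symm, hne n⟩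
    refine par x 2 (by decide) (fun n => ?_) (fun n hn => ?_) (fun n hn => h1 _ _ (hD n) hn)
    · have h2 : ¬ (c (x n) = 1) := fun h => hx1 n (Or.inl h)
      rcases fin3 (c (x n)) with h | h | h
      · exact Or.inl h
      · exact absurd h h2
      · exact Or.inr h
    · obtain ⟨y, hy, hy0⟩ := h0 _ hn
      rcases hy with ⟨rfl, hy⟩ | ⟨rfl, hy⟩
      · exact absurd (Or.inr ⟨hn, hy, hy0⟩) (hx1 n)
      · rw [← hx3]
        exact hy0

end Pool.Agent.Q214.BD2
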